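import Pool.Agent.H53.EFG.Hier

/-!
MP_fa8b7d_co: hierarchically envy-free convex partitions for every number
`n = q 0 * ... * q (s - 1)` of pieces, `q t` prime powers, with `b r * n` players in the family `r`.
-/

namespace Pool.Agent.Results.MP_fa8b7d_co.Hierarchical

theorem result :
    ∀ (d s : ℕ) (q : Fin s → ℕ), 0 < d → (∀ t, IsPrimePow (q t)) →
    ∀ (b : Fin d → ℕ) (μ : ∀ r : Fin d, Fin (b r * ∏ t, q t) →
      MeasureTheory.Measure (EuclideanSpace ℝ (Fin d))),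
      (∀ r i, MeasureTheory.IsProbabilityMeasure (μ r i)) →
      (∀ r i, MeasureTheory.Measure.AbsolutelyContinuous (μ r i)
        (MeasureTheory.volume : MeasureTheory.Measure (EuclideanSpace ℝ (Fin d)))) →
      ∃ C : (∀ t, Fin (q t)) → Set (EuclideanSpace ℝ (Fin d)),
        (∀ x, Convex ℝ (C x)) ∧ (∀ x, IsClosed (C x)) ∧ (⋃ x, C x) = Set.univ ∧
        (∀ x y, x ≠ y → Disjoint (interior (C x)) (interior (C y))) ∧
        ∀ r, ∃ π : Fin (b r * ∏ t, q t) → ∀ t, Fin (q t),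
          (∀ x, Nat.card {i // π i = x} = b r) ∧
          (∀ i (t : Fin s) (y : ∀ t, Fin (q t)), (∀ u < t, y u = π i u) →
            μ r i (⋃ z ∈ {z : ∀ t, Fin (q t) | ∀ u ≤ t, z u = y u}, C z) ≤
              μ r i (⋃ z ∈ {z : ∀ t, Fin (q t) | ∀ u ≤ t, z u = π i u}, C z)) ∧
          (∀ i, 1 ≤ ((∏ t, q t : ℕ) : ENNReal) * μ r i (C (π i))) ∧
          (∀ i (t : Fin s) (y : ∀ t, Fin (q t)), (∀ u < t, y u = π i u) →
            μ r i (C y) ≤ ((∏ u ∈ Finset.Ioi t, q u : ℕ) : ENNReal) * μ r i (C (π i))) := by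
  intro d s q hd hq b μ hμ hac
  obtain ⟨C, h1, h2, h3, h4, h5⟩ := Pool.Agent.H53.EFG.hier d hd s q hq b
    (fun r => Fin (b r * ∏ t, q t)) (fun r => by rw [Fintype.card_fin]) μ hμ hac
  refine ⟨C, h1, h2, h3, h4, ?_⟩
  intro r
  obtain ⟨π, h6, h7, h8, h9⟩ := h5 r
  refine ⟨π, h6, h7, h8, ?_⟩
  intro i t y hy
  have := h9 i t y hy
  rw [← Finset.prod_filter, Finset.filter_lt_eq_Ioi] at this
  exact this

end Pool.Agent.Results.MP_fa8b7d_co.Hierarchical
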