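import Pool.Agent.H53.EFG.Main

/-!
MP_fa8b7d_co: convex partitions into `n` pieces, grouped into a prime power number `q ≤ n` of
groups of `⌊n / q⌋` or `⌈n / q⌉` pieces, envy-free up to the factor `⌈n / q⌉`.

Proof. A Sperner type argument modulo `p` shows that for a prime power `q` equivariant continuous
functions of `q` distinct affine functions on `ℝ ^ d`, `d` of them at once, can be equalized. Apply
it to the total soft demand of each family for the `q` pieces (the blocks); every block then gets the
total demand `n / q` in every family. The demands are rounded to integers that are the same in all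
families: for `n ≡ -1, 0, 1` modulo `q` all roundings with one exceptional block are possible by
Hall's theorem, and for at most two families a common rounding exists by the integrality of
bipartite matchings (the intersection of two matroids). Each block is then cut, proportionally for
its players, into as many pieces as it has players in each family.
-/

namespace Pool.Agent.Results.MP_fa8b7d_co.NearEnvyFree

theorem result :
    ∀ (q n m d : ℕ), IsPrimePow q → q ≤ n → 0 < m → m ≤ d →
    (m ≤ 2 ∨ n % q = 0 ∨ n % q = 1 ∨ n % q = q - 1) →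
    ∀ μ : Fin m → Fin n → MeasureTheory.Measure (EuclideanSpace ℝ (Fin d)),
      (∀ r i, MeasureTheory.IsProbabilityMeasure (μ r i)) →
      (∀ r i, MeasureTheory.Measure.AbsolutelyContinuous (μ r i)
        (MeasureTheory.volume : MeasureTheory.Measure (EuclideanSpace ℝ (Fin d)))) →
      ∃ (C : Fin n → Set (EuclideanSpace ℝ (Fin d))) (g : Fin n → Fin q),
        (∀ k, Convex ℝ (C k)) ∧ (∀ k, IsClosed (C k)) ∧ (⋃ k, C k) = Set.univ ∧
        (∀ k l, k ≠ l → Disjoint (interior (C k)) (interior (C l))) ∧
        (∀ j, n / q ≤ Nat.card {k // g k = j} ∧ Nat.card {k // g k = j} ≤ (n + q - 1) / q) ∧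
        ∀ r, ∃ π : Equiv.Perm (Fin n), ∀ i,
          (∀ j, μ r i (⋃ k ∈ {k | g k = j}, C k) ≤ μ r i (⋃ k ∈ {k | g k = g (π i)}, C k)) ∧
          μ r i (⋃ k ∈ {k | g k = g (π i)}, C k) ≤
            (Nat.card {k // g k = g (π i)} : ENNReal) * μ r i (C (π i)) ∧
          (IsPrimePow (Nat.card {k // g k = g (π i)}) →
            ∀ k, g k = g (π i) → μ r i (C k) ≤ μ r i (C (π i))) ∧
          (∀ k, μ r i (C k) ≤ (Nat.card {k // g k = g (π i)} : ENNReal) * μ r i (C (π i))) := by
  intro q n m d hq hqn hm hmd hcase μ hμ hac
  exact Pool.Agent.H53.EFG.main q n m d hq hqn hm hmd hcase μ hμ hac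

end Pool.Agent.Results.MP_fa8b7d_co.NearEnvyFree
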