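import Pool.Agent.H62.EF.Fin
import Pool.Agent.H41.EF.Pieces

/-!
MP_fa8b7d_co, Q1 for all prime powers `n` and all `d`: any `d` groups of `n` absolutely
continuous probability measures on `ℝ ^ d` have a common envy-free convex partition into `n`
pieces.

Proof. The partitions used are those given by `n` distinct affine functions. A Sperner type
argument modulo `p` on the Kuhn triangulation of `ℤ ^ (n d)`: the label of a vertex is the
favourite piece of one player of each group, the product of the `d` Sperner cochains is a cocycle,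
the total value is `± 1` for standard labels, and simplices leaving a large box contribute a
multiple of `p`, because there the labels are compatible with the `Nat.choose n j` shuffles.
-/

namespace Pool.Agent.Results.MP_fa8b7d_co.PrimePowers

open Pool.Agent.H62.EF

theorem result :
    ∀ (p k n d : ℕ), p.Prime → n = p ^ k → 0 < d →
    ∀ μ : Fin d → Fin n → MeasureTheory.Measure (EuclideanSpace ℝ (Fin d)),
      (∀ r i, MeasureTheory.IsProbabilityMeasure (μ r i)) →
      (∀ r i, MeasureTheory.Measure.AbsolutelyContinuous (μ r i)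
        (MeasureTheory.volume : MeasureTheory.Measure (EuclideanSpace ℝ (Fin d)))) →
      ∃ C : Fin n → Set (EuclideanSpace ℝ (Fin d)),
        (∀ i, Convex ℝ (C i)) ∧ (∀ i, IsClosed (C i)) ∧ (⋃ i, C i) = Set.univ ∧
        (∀ i j, i ≠ j → Disjoint (interior (C i)) (interior (C j))) ∧
        ∀ r, ∃ π : Equiv.Perm (Fin n), ∀ i j, μ r i (C j) ≤ μ r i (C (π i)) := by
  intro p k n d hp hn hd μ hμ hac
  rcases Nat.eq_zero_or_pos k with hk | hk
  · -- `n = 1`
    subst hk
    rw [pow_zero] at hn
    subst hn
    refine ⟨fun _ => Set.univ, fun _ => convex_univ, fun _ => isClosed_univ, ?_, ?_, ?_⟩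
    · exact Set.iUnion_const _
    · intro i j hij
      exact absurd (Subsingleton.elim i j) hij
    · intro r
      exact ⟨Equiv.refl _, fun i j => le_rfl⟩
  have hpp : IsPrimePow n := (isPrimePow_nat_iff n).mpr ⟨p, k, hp, hk, hn.symm⟩
  have hfin : ∀ r i, MeasureTheory.IsFiniteMeasure (μ r i) := fun r i => by
    have := hμ r i
    infer_instance
  obtain ⟨x, hx, hπ⟩ := envy_free n d hpp hd (fun r i s => (μ r i s).toReal) (by
    intro r i j x hx
    have := hfin r i
    have h1 := Pool.Agent.H41.EF.EF6e (μ r i) (hac r i) x hx j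
    exact (ENNReal.tendsto_toReal (MeasureTheory.measure_ne_top _ _)).comp h1)
  refine ⟨piece x, Pool.Agent.H41.EF.EF6a x, Pool.Agent.H41.EF.EF6b x,
    Pool.Agent.H41.EF.EF6c hpp.pos x, ?_, ?_⟩
  · intro i j hij
    exact Pool.Agent.H41.EF.EF6d x hx i j hij
  · intro r
    obtain ⟨π, hπ⟩ := hπ r
    refine ⟨π, ?_⟩
    intro i j
    have := hfin r i
    exact (ENNReal.toReal_le_toReal (MeasureTheory.measure_ne_top _ _)
      (MeasureTheory.measure_ne_top _ _)).mp (hπ i j)

end Pool.Agent.Results.MP_fa8b7d_co.PrimePowers
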