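import Pool.Agent.H53.EFS.Fin

/-!
MP_fa8b7d_co, Q1: exactly envy-free convex partitions for every number `n` of pieces, for families
that live in different places: there are sets `K r` such that for every set `I` of families some
affine function is positive on the sets `K r`, `r ∈ I`, and negative on the others, and every
player of the family `r` values the complement of `K r` at less than `1 / n`. The family `r` has
`b r * n` players, and `b r` of them are assigned to each piece (`b r = 1` is Q1).

Proof. The pieces are cut off one after the other by `n - 1` hyperplanes, each taken from a cube of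
affine functions: the multiaffine interpolation between the functions that separate the families,
moved a little so that it avoids the zero function (Sard). At the faces of the cube some pieces are
not wanted by a family, and the Poincare-Miranda theorem makes the demands for all pieces equal.
-/

namespace Pool.Agent.Results.MP_fa8b7d_co.SeparatedFamilies

open MeasureTheory

theorem result :
    ∀ (n d m : ℕ), 0 < n → m ≤ d →
      ∀ (b : Fin m → ℕ) (K : Fin m → Set (EuclideanSpace ℝ (Fin d))),
      (∀ I : Finset (Fin m), ∃ (a : EuclideanSpace ℝ (Fin d)) (c : ℝ),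
        (∀ r ∈ I, ∀ y ∈ K r, c < inner ℝ a y) ∧ (∀ r ∉ I, ∀ y ∈ K r, inner ℝ a y < c)) →
      ∀ μ : ∀ r : Fin m, Fin (b r * n) → Measure (EuclideanSpace ℝ (Fin d)),
      (∀ r i, IsProbabilityMeasure (μ r i)) →
      (∀ r i, Measure.AbsolutelyContinuous (μ r i)
        (volume : Measure (EuclideanSpace ℝ (Fin d)))) →
      (∀ r i, (n : ENNReal) * μ r i (K r)ᶜ < 1) →
      ∃ C : Fin n → Set (EuclideanSpace ℝ (Fin d)),
        (∀ k, Convex ℝ (C k)) ∧ (∀ k, IsClosed (C k)) ∧ (⋃ k, C k) = Set.univ ∧
        (∀ k l, k ≠ l → Disjoint (interior (C k)) (interior (C l))) ∧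
        ∀ r, ∃ π : Fin (b r * n) → Fin n, (∀ k, Nat.card {i // π i = k} = b r) ∧
          ∀ i k, μ r i (C k) ≤ μ r i (C (π i)) := by
  intro n d m hn hmd b K hsep μ hμ hac hK
  exact Pool.Agent.H53.EFS.partA n d m hn hmd b (fun r => Fin (b r * n))
    (fun r => Fintype.card_fin _) K hsep μ hμ hac hK

end Pool.Agent.Results.MP_fa8b7d_co.SeparatedFamilies
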